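import Pool.Agent.Helper12.DB11

set_option autoImplicit false

namespace Pool.Agent.Results.MP_ae2532_an.NoUniformEstimates

open scoped ContDiff
open Pool.Agent.Helper12.DB

/-- Negative answer to Q1 in every dimension `n ≥ 2`: there is a bounded domain `Ω` in `ℂⁿ`,
biholomorphic to the unit ball, on which `∂̄` does not satisfy uniform estimates. There is even a
single `∂̄`-closed `(0,1)`-form with smooth coefficients and `‖f‖_∞ ≤ 1` on `Ω` such that
`∂̄u = f` has no bounded solution at all. -/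
theorem result : ∀ n : ℕ, 2 ≤ n → ∃ Ω : Set (EuclideanSpace ℂ (Fin n)),
    IsOpen Ω ∧ IsConnected Ω ∧ Bornology.IsBounded Ω ∧ BiholomorphicToBall Ω ∧
    ¬ UniformEstimates Ω ∧
    ∃ f : Fin n → EuclideanSpace ℂ (Fin n) → ℂ, (∀ j, ContDiffOn ℝ ∞ (f j) Ω) ∧
      FormBound Ω f 1 ∧ WeakClosed Ω f ∧
      ∀ (u : EuclideanSpace ℂ (Fin n) → ℂ) (C : ℝ), FunBound Ω u C →
        ¬ ∀ j, WeakDbar Ω j u (f j) := by
  intro n hn
  obtain ⟨m, rfl⟩ := Nat.exists_eq_add_of_le' hn
  refine ⟨Om m, isOpen_Om m, isConnected_Om m, isBounded_Om m, biholomorphic m, ?_,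
    frm m, frm_smooth m, frm_bound m, frm_closed m, no_bounded_solution m⟩
  rintro ⟨C, hC⟩
  obtain ⟨u, hu, hw⟩ := hC (frm m) 1 (frm_bound m) (frm_closed m)
  exact no_bounded_solution m u (C * 1) hu hw

end Pool.Agent.Results.MP_ae2532_an.NoUniformEstimates
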